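import Pool.Agent.U536.CF.F
import Pool.Agent.Results.MP_14cf73_nt.MultiplicativeValues

/-!
# The inequality `c < C H (abc) ^ M` for all triples with a member near an integer with a large common factor with a value of a multiplicative function

Let `f` be a positive multiplicative function of at most polynomial growth such that `f p ≤ M p` for the large primes `p`,
with different values at different large primes; for example Euler's function or the sum of the divisors. Let `G` have
steps bounded below by a positive constant and growth at most `v^d`, for example `α v^d`. Let `b < 1` and `0 ≤ c < 2 b -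
1`. For all `m ≤ N` but `N exp (-(log N)^c)`, for EVERY integer `w ≥ exp ((log N)^b)` with `gcd(w, f(m)) ≥ w^ρ`, EVERY `n
≥ 1` with `|n - G w| ≤ w ^ κ` is `Good A C M`: every admissible triple with the member `n` and `c ≤ n ^ A` satisfies `c <
C H (abc) ^ M`, if `A ≥ 1`, `C > 0`, `M > 0`, `κ ≥ 0` and `2 A d / (3 M) + κ < ρ ≤ 1`. The integers `w` include all large
divisors of `f(m)` and their multiples by small integers; for Euler's function, the orders of the elements of the group of
units modulo `m`.

Proof. Write `m = k u` with `u` squarefree and composed of primes larger than `N^(1/J)`, `J = (log N)^a`, and `k ≤ exp (4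
(log N)^a)`; this is possible for all `m ≤ N` but very few. If `v ∣ f(k) f(u)`, then `v = g v'` with `g ∣ f(k)` and `v' ∣
∏ f(p)`, and the number of such `u ≤ N / k` is at most `N / (k v')` times `(log N)^O(J)` times the number `τ_J(v')` of the
ordered factorizations of `v'` into `J` factors. The inequality `τ_J^q ≤ τ_K` for `K ≥ J^q` and Hölder's inequality bound
the sum over the sparse set of the exceptional `v`. The file `MultiplicativeValues` of the starting library treats the
integers `w = f(m)`, with `N / (log N)^U` exceptions.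
-/

set_option autoImplicit false

namespace Pool.Agent.Results.MP_14cf73_nt.CommonFactors

open Finset
open Pool.Agent.Results.MP_14cf73_nt.SequenceMembers (Good Bad count)
open Pool.Agent.N733.TG (LM Expanding lm_totient lm_sigma expanding_pow)
open Pool.Agent.U536.CF (Common common_good_nat common_of_dvd common_order)

/-- **The inequality `c < C H (abc) ^ M` for all triples with a member near an integer with a large common factor with a value
of a multiplicative function.** Let `f` be multiplicative and positive, of at most polynomial growth, with `f p ≤ M p` at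
the large primes, and injective there. Let `G` have steps `≥ a > 0` and growth at most `v^d`. Let `b < 1` and `0 ≤ c < 2 b
- 1`, `A ≥ 1`, `C > 0`, `M > 0`, `κ ≥ 0` and `2 A d / (3 M) + κ < ρ ≤ 1`. For all large `N`, for all `m ≤ N` but `N exp
(-(log N)^c)`, for EVERY integer `w ≥ exp ((log N)^b)` with `gcd(w, f(m)) ≥ w^ρ`, EVERY `n ≥ 1` with `|n - G w| ≤ w ^ κ`
is `Good A C M`: every admissible triple with the member `n` and `c ≤ n ^ A` satisfies `c < C H (abc) ^ M`. All divisors
`w ≥ exp ((log N)^b)` of `f(m)` are such integers `w`, and for Euler's function the orders `≥ exp ((log N)^b)` of the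
units modulo `m`. Euler's function and the sum of the divisors are examples of `f`, and `α v^d` with `α > 0`, `d ≥ 1` is
an example of `G`. -/
theorem result :
    (∀ f : ℕ → ℕ, LM f → ∀ (G : ℕ → ℝ) (d : ℝ), Expanding G d → ∀ A C M κ ρ b c : ℝ, 1 ≤ A → 0 < C → 0 < M → 0 ≤ κ →
      d * (2 * A / (3 * M)) + κ < ρ → ρ ≤ 1 → b < 1 → 0 ≤ c → c < 2 * b - 1 → ∃ N₀ : ℕ, ∀ N : ℕ, N₀ ≤ N →
      ({m : ℕ | 1 ≤ m ∧ m ≤ N ∧ ¬ ∀ w : ℕ, Common f b ρ N m w → ∀ n : ℕ, 1 ≤ n → |(n : ℝ) - G w| ≤ (w : ℝ) ^ κ →
        Good A C M n}.ncard : ℝ) ≤ N * Real.exp (-(Real.log N ^ c))) ∧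
    (LM Nat.totient ∧ LM (fun m => ∑ d ∈ m.divisors, d)) ∧
    (∀ α d : ℝ, 0 < α → 1 ≤ d → Expanding (fun v => α * (v : ℝ) ^ d) d) ∧
    (∀ (f : ℕ → ℕ) (b ρ : ℝ) (N m w : ℕ), ρ ≤ 1 → Real.exp (Real.log N ^ b) ≤ (w : ℝ) → w ∣ f m → Common f b ρ N m w) ∧
    ∀ (b ρ : ℝ) (N m : ℕ), ρ ≤ 1 → ∀ x : (ZMod m)ˣ, Real.exp (Real.log N ^ b) ≤ (orderOf x : ℝ) →
      Common Nat.totient b ρ N m (orderOf x) := by
  refine ⟨?_, ⟨lm_totient, lm_sigma⟩, fun α d hα hd => expanding_pow hα hd, fun f b ρ N m w hρ hw hd => common_of_dvd hρ hw hd,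
    fun b ρ N m hρ x hx => common_order hρ x hx⟩
  classical
  refine fun f hf G d hG A C M κ ρ b c hA hC hM hκ h1 hρ hb hc hcb => ?_
  obtain ⟨N₀, hN₀⟩ := common_good_nat (fun _ => True) (Good A C M) hf hG (s := 2 * A / (3 * M)) (κ := κ)
    (by positivity) hκ h1 hρ hb hc hcb (fun ε hε => by
      obtain ⟨K, hK⟩ := count (A := A) (C := C) (M := M) (lt_of_lt_of_le one_pos hA) hC hM ε hε
      refine ⟨K, fun X hX => le_trans (le_of_eq ?_) (hK X hX)⟩
      rw [← Set.ncard_coe_finset]
      congr 2
      ext t
      simp only [Set.mem_ofPred_eq, coe_filter, mem_Ioc, Bad]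
      constructor
      · rintro ⟨a1, a2, _, a3⟩
        exact ⟨⟨a1, a2⟩, a3⟩
      · rintro ⟨⟨a1, a2⟩, a3⟩
        exact ⟨a1, a2, trivial, a3⟩)
  refine ⟨N₀, fun N hN => le_trans (le_of_eq ?_) (hN₀ N hN)⟩
  congr 2
  ext m
  simp only [Set.mem_ofPred_eq, forall_true_left]

end Pool.Agent.Results.MP_14cf73_nt.CommonFactors
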