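import Pool.Agent.U449.BV.G
import Pool.Agent.Results.MP_14cf73_nt.SequenceMembers

/-!
# The inequality `c < C H (abc) ^ M` for triples with a member near values of mixed polynomials on arbitrary sets

Let `A ≥ 1`, `C, M > 0`, `κ ≥ 0` and `2 A / (3 M) + κ < δ ≤ 1`. Let `f(x, y)` be an integer polynomial with a monomial which
contains both variables, `S`, `T` ARBITRARY finite sets of at least `X ^ δ` integers, and `g`, `h` ARBITRARY real functions such
that `|f(s, t) + g(s) + h(t)| ≤ X` on `S × T`. For all the pairs `(s, t)`, apart from a proportion of at most `X ^ (-ρ)`, EVERY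
admissible triple one of whose members `n` is within `X ^ κ` of `f(s, t) + g(s) + h(t)`, and with `c ≤ n ^ A`, satisfies
`c < C H (abc) ^ M`. The same holds, with `X = p`, for the least residues of `f(s, t) + g(s) + h(t)` modulo a prime `p`, where `S`,
`T` are arbitrary sets of residues, and more generally for the values `F(s, t)` of all functions of two variables with few
coincidences (`Rare`). For `M = 1 + ε`, `A = 1`, `κ = 0` this is the inequality of the question for all triples with such a largest
member, on arbitrary sets of at least `X ^ (2 / 3)` elements.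

The number of the members up to `X` of exceptional triples is `O(X ^ (2 A / (3 M) + ε))` (starting theorem
`ExceptionsByHeight`). Since the sets and functions are arbitrary, a value can be taken by very many pairs, and so this does not
give the result directly. New: the inequality of Cauchy and Schwarz; for most pairs `s, s'` the difference `F(s, t) - F(s', t)` is
small for few `t` (`Pool.Agent.U449.BV`).
-/

set_option autoImplicit false

namespace Pool.Agent.Results.MP_14cf73_nt.MixedPolynomials

open Finset
open Pool.Agent.U449.BV (Rare OnProducts on_products_nat polys residues)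
open Pool.Agent.Results.MP_14cf73_nt.SequenceMembers (Good Bad count)

/-- EVERY `n ≥ 1` with `|n - x| ≤ W` is `Good A C M`: every admissible triple with the member `n` and `c ≤ n ^ A` satisfies
`c < C H (abc) ^ M`. -/
def Near (A C M : ℝ) (W x : ℝ) : Prop :=
  ∀ n : ℕ, 1 ≤ n → |(n : ℝ) - x| ≤ W → Good A C M n

/-- **Theorem.** (1) For `A ≥ 1`, `C > 0`, `M > 0`, `κ ≥ 0`: the property `Near`, with windows of length `X ^ κ`, holds for almost
all the values of functions of two variables with few coincidences, on arbitrary finite sets of at least `X ^ δ` elements,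
`2 A / (3 M) + κ < δ ≤ 1` (`OnProducts`). (2) Coincidences are rare for `f(a, b) + g(a) + h(b)`, where `f` is any integer
polynomial with a monomial which contains both variables, and `g` and `h` are arbitrary real functions, on arbitrary finite
sets of integers. (3) The same is true of the least residues of `f(a, b) + g(a) + h(b)` modulo a prime `p`. -/
theorem result :
    (∀ A C M κ : ℝ, 1 ≤ A → 0 < C → 0 < M → 0 ≤ κ → OnProducts (2 * A / (3 * M) + κ) κ (Near A C M)) ∧
    (∀ (d : ℕ) (f : MvPolynomial (Fin 2) ℤ), f.totalDegree ≤ d → (∃ m ∈ f.support, m 0 ≠ 0 ∧ m 1 ≠ 0) →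
      ∀ (g h : ℤ → ℝ) (A B : Finset ℤ),
        Rare d A B (fun a b => ((MvPolynomial.eval ![a, b] f : ℤ) : ℝ) + g a + h b)) ∧
    ∀ (p : ℕ) [Fact p.Prime] (d : ℕ) (f : MvPolynomial (Fin 2) (ZMod p)), f.totalDegree ≤ d →
      (∃ m ∈ f.support, m 0 ≠ 0 ∧ m 1 ≠ 0) → ∀ (g h : ZMod p → ZMod p) (A B : Finset (ZMod p)),
        Rare d A B (fun a b => (((MvPolynomial.eval ![a, b] f + g a + h b).val : ℕ) : ℝ)) := by
  classical
  refine ⟨fun A C M κ hA hC hM hκ => ?_, polys, residues⟩
  refine (on_products_nat (Bad A C M) (s := 2 * A / (3 * M)) (κ := κ) (by positivity) hκ (fun ε hε => by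
      obtain ⟨K, hK⟩ := count (A := A) (C := C) (M := M) (lt_of_lt_of_le one_pos hA) hC hM ε hε
      refine ⟨K, fun X hX => le_trans (le_of_eq ?_) (hK X hX)⟩
      congr!)).mono fun W x _ hg n _ hw => ?_
  by_contra hcon
  exact (hg n hw).2 hcon

end Pool.Agent.Results.MP_14cf73_nt.MixedPolynomials
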