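import Mathlib
import Pool.Agent.U964.ML.Tri2

/-!
# The inequality `c < C H(a b c) ^ (1 + ε)` for triples with one exponent, the exponent being arbitrary

Let `S` be a finite set of primes, `H(m) = γ(m) / (log γ(m)) ^ ω(m)` with `γ` the radical. We prove the inequality
`c < C H(a b c) ^ (1 + ε)` of the problem for ALL triples `a + b = c` of coprime positive integers such that two
members are of the form `s u ^ n`, `u` square-free, `s` composed of primes of `S`, `n ≥ 1` ARBITRARY, the third member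
is square-free (or `z ≤ B γ(z)`), and `ω(a b c) log log c ≤ η log c`, where `η > 0` depends on `ε` only. With
exponents up to `k n` and `z ≤ B γ(z) ^ k` the exponent `1 + ε` is replaced by `k + ε`. The condition on the number
of primes, satisfied by almost all integers and far beyond (the largest possible values of
`ω(a b c) log log c / log c` have the limit `3`), is natural: the inequality is stronger than the abc inequality by
the factor `(log γ) ^ ω`.
-/

set_option autoImplicit false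

namespace Pool.Agent.Results.MP_14cf73_nt.OneExponentTriples

/-- the radical -/
def radical (m : ℕ) : ℕ := ∏ q ∈ m.primeFactors, q

/-- the number of distinct prime factors -/
def omega (m : ℕ) : ℕ := m.primeFactors.card

/-- the function of the problem -/
noncomputable def H (m : ℕ) : ℝ := (radical m : ℝ) / Real.log (radical m : ℝ) ^ omega m

/-- coprime positive integers with `a + b = c` -/
def IsTriple (a b c : ℕ) : Prop := 1 ≤ a ∧ 1 ≤ b ∧ Nat.Coprime a b ∧ a + b = c

/-- `x`, `y` are two members of the triple `(a, b, c)` and `z` is the third member -/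
def Members (a b c x y z : ℕ) : Prop :=
  (x = a ∧ y = b ∧ z = c) ∨ (x = a ∧ y = c ∧ z = b) ∨ (x = b ∧ y = c ∧ z = a)

/-- all exponents in the factorisation of `w` at the primes outside `S` are divisible by `n` -/
def Multiples (S : Finset ℕ) (n w : ℕ) : Prop :=
  ∀ q : ℕ, q.Prime → q ∉ S → n ∣ w.factorization q

/-- all exponents in the factorisation of `w` at the primes outside `S` are at most `e` -/
def ExponentsLe (S : Finset ℕ) (e w : ℕ) : Prop :=
  ∀ q : ℕ, q.Prime → q ∉ S → w.factorization q ≤ e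

theorem result (S : Finset ℕ) (k : ℕ) (hk : 1 ≤ k) (B ε : ℝ) (hε : 0 < ε) :
    ∃ (η C : ℝ) (N : ℕ), 0 < η ∧ ∀ a b c x y z n : ℕ, IsTriple a b c → Members a b c x y z →
      1 ≤ n → Multiples S n (x * y) → (N ≤ n ∨ ExponentsLe S (k * n) (x * y)) →
      (z : ℝ) ≤ B * (radical z : ℝ) ^ k →
      (omega (a * b * c) : ℝ) * Real.log (Real.log (c : ℝ)) ≤ η * Real.log (c : ℝ) →
      (c : ℝ) < C * H (a * b * c) ^ ((k : ℝ) + ε) := by
  obtain ⟨K0, N, h⟩ := Pool.Agent.U964.ML.Tri2.triples S k hk B (ε / 2) (by linarith)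
  have hkr : (1:ℝ) ≤ k := by exact_mod_cast hk
  obtain ⟨K, hK⟩ : ∃ K : ℝ, K = max K0 1 := ⟨_, rfl⟩
  have hK1 : 1 ≤ K := by rw [hK]; exact le_max_right _ _
  have hK0K : K0 ≤ K := by rw [hK]; exact le_max_left _ _
  obtain ⟨s, hs⟩ : ∃ s : ℝ, s = (k:ℝ) + ε := ⟨_, rfl⟩
  have hs1 : 1 < s := by rw [hs]; linarith
  have hs0 : 0 < s := by linarith
  obtain ⟨η, hη⟩ : ∃ η : ℝ, η = ε / (4 * s ^ 2) := ⟨_, rfl⟩
  have hη0 : 0 < η := by rw [hη]; positivity
  obtain ⟨D, hD⟩ : ∃ D : ℝ, D = (3 * Real.log 21) ^ (21 ^ 3 : ℝ) := ⟨_, rfl⟩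
  have hlog21 : 1 < Real.log 21 := by
    rw [Real.lt_log_iff_exp_lt (by norm_num)]
    have := Real.exp_one_lt_d9
    linarith
  have hD1 : 1 ≤ D := by
    rw [hD]
    exact Real.one_le_rpow (by linarith) (by norm_num)
  refine ⟨η, 2 * K * (D * K ^ (2 * η)) ^ s, N, hη0, ?_⟩
  intro a b c x y z n ht hm hn hmul hle hz hω
  have hmain : (c:ℝ) ≤ K0 * (radical (a * b * c) : ℝ) ^ ((k : ℝ) + ε / 2) :=
    h a b c x y z n ht hm hn hmul hle hz
  obtain ⟨ha, hb, hab, hc⟩ := ht
  have hc2 : 2 ≤ c := by omega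
  have hcr : (2:ℝ) ≤ c := by exact_mod_cast hc2
  have hc0 : (0:ℝ) < c := by linarith
  have hm0 : a * b * c ≠ 0 := Nat.mul_ne_zero (Nat.mul_ne_zero (by omega) (by omega)) (by omega)
  -- the radical
  have hRle : radical (a * b * c) ≤ a * b * c :=
    Nat.le_of_dvd (Nat.pos_of_ne_zero hm0) (Nat.prod_primeFactors_dvd _)
  obtain ⟨R, hR⟩ : ∃ R : ℝ, R = (radical (a * b * c) : ℝ) := ⟨_, rfl⟩
  obtain ⟨w, hw⟩ : ∃ w : ℕ, w = omega (a * b * c) := ⟨_, rfl⟩
  have hR2 : 2 ≤ R := by
    obtain ⟨p, hp, hpc⟩ := Nat.exists_prime_and_dvd (n := c) (by omega)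
    have h1 : p ∈ (a * b * c).primeFactors :=
      Nat.mem_primeFactors.2 ⟨hp, hpc.mul_left _, hm0⟩
    have h2 : p ≤ radical (a * b * c) :=
      Nat.le_of_dvd (Finset.prod_pos fun q hq => (Nat.prime_of_mem_primeFactors hq).pos)
        (Finset.dvd_prod_of_mem _ h1)
    rw [hR]
    exact_mod_cast hp.two_le.trans h2
  have hR0 : 0 < R := by linarith
  have hR1 : 1 ≤ R := by linarith
  have hRc : R ≤ (c:ℝ) ^ 3 := by
    have h1 : a * b * c ≤ c ^ 3 := by
      have h2 : a * b ≤ c * c := Nat.mul_le_mul (by omega) (by omega)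
      calc a * b * c ≤ c * c * c := Nat.mul_le_mul_right _ h2
        _ = c ^ 3 := by ring
    rw [hR]
    exact_mod_cast hRle.trans h1
  have hL0 : 0 < Real.log R := Real.log_pos (by linarith)
  have hLc : Real.log R ≤ 3 * Real.log c := by
    have h1 := Real.log_le_log hR0 hRc
    rwa [Real.log_pow] at h1
  rw [← hR] at hmain
  rw [← hw] at hω
  -- the power of the logarithm
  have hpow : Real.log R ^ w ≤ D * (c:ℝ) ^ (2 * η) := by
    by_cases hc21 : c < 21
    · have h1 : Real.log c ≤ Real.log 21 := by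
        apply Real.log_le_log hc0
        exact_mod_cast hc21.le
      have h2 : Real.log R ≤ 3 * Real.log 21 := by linarith
      have h3 : (w:ℝ) ≤ (21:ℝ) ^ 3 := by
        have h4 : w ≤ a * b * c := by
          rw [hw, omega]
          have h5 : (a * b * c).primeFactors ⊆ Finset.Icc 1 (a * b * c) := by
            intro q hq
            rw [Finset.mem_Icc]
            exact ⟨(Nat.prime_of_mem_primeFactors hq).pos,
              Nat.le_of_dvd (Nat.pos_of_ne_zero hm0) (Nat.dvd_of_mem_primeFactors hq)⟩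
          have h6 := Finset.card_le_card h5
          rwa [Nat.card_Icc, Nat.add_sub_cancel] at h6
        have h5 : a * b * c ≤ 21 * 21 * 21 :=
          Nat.mul_le_mul (Nat.mul_le_mul (by omega) (by omega)) (by omega)
        have h6 : ((w:ℕ):ℝ) ≤ ((21 * 21 * 21 : ℕ) : ℝ) := by exact_mod_cast h4.trans h5
        push_cast at h6
        linarith
      calc Real.log R ^ w ≤ (3 * Real.log 21) ^ w := pow_le_pow_left₀ hL0.le h2 w
        _ = (3 * Real.log 21) ^ (w:ℝ) := (Real.rpow_natCast _ _).symm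
        _ ≤ (3 * Real.log 21) ^ (21 ^ 3 : ℝ) :=
            Real.rpow_le_rpow_of_exponent_le (by linarith) h3
        _ = D := hD.symm
        _ ≤ D * (c:ℝ) ^ (2 * η) :=
            le_mul_of_one_le_right (by linarith) (Real.one_le_rpow (by linarith) (by linarith))
    · rw [not_lt] at hc21
      have hc21r : (21:ℝ) ≤ c := by exact_mod_cast hc21
      have h1 : 3 ≤ Real.log c := by
        rw [Real.le_log_iff_exp_le hc0]
        have h2 : Real.exp 3 = Real.exp 1 ^ 3 := by rw [← Real.exp_nat_mul]; norm_num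
        have h3 := Real.exp_one_lt_d9
        have h4 := Real.exp_pos 1
        have h5 : Real.exp 1 ^ 3 ≤ 2.7182818286 ^ 3 := pow_le_pow_left₀ h4.le h3.le 3
        rw [h2]
        refine h5.trans ?_
        norm_num
        linarith
      have hlc : 0 < Real.log c := by linarith
      have h2 : Real.log R ^ w ≤ (Real.log c ^ 2) ^ w := by
        apply pow_le_pow_left₀ hL0.le
        nlinarith
      have h3 : (Real.log c ^ 2) ^ w = Real.exp (2 * (w * Real.log (Real.log c))) := by
        rw [← pow_mul, ← Real.exp_log (pow_pos hlc (2 * w)), Real.log_pow]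
        congr 1
        push_cast
        ring
      have h4 : (c:ℝ) ^ (2 * η) = Real.exp (2 * (η * Real.log c)) := by
        rw [Real.rpow_def_of_pos hc0]
        congr 1
        ring
      calc Real.log R ^ w ≤ Real.exp (2 * (w * Real.log (Real.log c))) := by rw [← h3]; exact h2
        _ ≤ Real.exp (2 * (η * Real.log c)) := by
            apply Real.exp_le_exp.2
            linarith
        _ = 1 * (c:ℝ) ^ (2 * η) := by rw [h4, one_mul]
        _ ≤ D * (c:ℝ) ^ (2 * η) := by
            gcongr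
  have hLw : 0 < Real.log R ^ w := pow_pos hL0 w
  have hH : H (a * b * c) = R / Real.log R ^ w := by rw [H, hR, hw]
  have hcK : (c:ℝ) ≤ K * R ^ ((k : ℝ) + ε / 2) :=
    hmain.trans (mul_le_mul_of_nonneg_right hK0K (Real.rpow_nonneg hR0.le _))
  have hcKs : (c:ℝ) ≤ K * R ^ s := by
    refine hcK.trans ?_
    have : R ^ ((k : ℝ) + ε / 2) ≤ R ^ s :=
      Real.rpow_le_rpow_of_exponent_le hR1 (by rw [hs]; linarith)
    gcongr
  have hc2η : (c:ℝ) ^ (2 * η) ≤ K ^ (2 * η) * R ^ (s * (2 * η)) := by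
    have h1 := Real.rpow_le_rpow hc0.le hcKs (by linarith : (0:ℝ) ≤ 2 * η)
    rwa [Real.mul_rpow (by linarith) (Real.rpow_nonneg hR0.le _), ← Real.rpow_mul hR0.le] at h1
  obtain ⟨G, hG⟩ : ∃ G : ℝ, G = D * K ^ (2 * η) := ⟨_, rfl⟩
  have hG0 : 0 < G := by
    rw [hG]
    have : 0 < K ^ (2 * η) := Real.rpow_pos_of_pos (by linarith) _
    positivity
  have hpow2 : Real.log R ^ w ≤ G * R ^ (s * (2 * η)) := by
    calc Real.log R ^ w ≤ D * (c:ℝ) ^ (2 * η) := hpow
      _ ≤ D * (K ^ (2 * η) * R ^ (s * (2 * η))) := by gcongr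
      _ = _ := by rw [hG]; ring
  have hexp : s * (2 * η) * s = ε / 2 := by
    rw [hη]
    field_simp
    ring
  have hpow3 : (Real.log R ^ w) ^ s ≤ G ^ s * R ^ (ε / 2) := by
    have h1 := Real.rpow_le_rpow hLw.le hpow2 hs0.le
    rwa [Real.mul_rpow hG0.le (Real.rpow_nonneg hR0.le _), ← Real.rpow_mul hR0.le, hexp] at h1
  have hLs : 0 < (Real.log R ^ w) ^ s := Real.rpow_pos_of_pos hLw _
  rw [hH, ← hs, ← hG, Real.div_rpow hR0.le hLw.le, ← mul_div_assoc, lt_div_iff₀ hLs]
  have hGs : 0 < G ^ s := Real.rpow_pos_of_pos hG0 _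
  have hRs : 0 < R ^ s := Real.rpow_pos_of_pos hR0 _
  have hsplit : R ^ ((k : ℝ) + ε / 2) * R ^ (ε / 2) = R ^ s := by
    rw [← Real.rpow_add hR0, hs]
    congr 1
    ring
  calc (c:ℝ) * (Real.log R ^ w) ^ s ≤ (K * R ^ ((k : ℝ) + ε / 2)) * (G ^ s * R ^ (ε / 2)) :=
        mul_le_mul hcK hpow3 hLs.le (by positivity)
    _ = K * G ^ s * (R ^ ((k : ℝ) + ε / 2) * R ^ (ε / 2)) := by ring
    _ = K * G ^ s * R ^ s := by rw [hsplit]
    _ < 2 * K * G ^ s * R ^ s := by
        have : 0 < K * G ^ s * R ^ s := by positivity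
        linarith

end Pool.Agent.Results.MP_14cf73_nt.OneExponentTriples
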