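import Mathlib

set_option autoImplicit false

/-!
# The inequality `c < C H (abc) ^ (1 + ε)` is decided on a thin and sparse set of triples

`H (n) = γ (n) / (log γ (n)) ^ ω (n)`.  The assertion of Q1 for all admissible triples is equivalent
to the same assertion for the triples `(x ^ m, z ^ m - x ^ m, z ^ m)` only, with `x ^ m ≤ δ z ^ m`,
`N ∣ abc` and `log c` in sparse windows.
-/

namespace Pool.Agent.Results.MP_14cf73_nt.ThinTriples

open Filter Topology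

/-- `γ(n)`, the product of the primes dividing `n` -/
def radical (n : ℕ) : ℕ := ∏ p ∈ n.primeFactors, p

/-- `ω(n)`, the number of primes dividing `n` -/
def omega (n : ℕ) : ℕ := n.primeFactors.card

/-- `H(n) = γ(n) / (log γ(n)) ^ ω(n)` -/
noncomputable def H (n : ℕ) : ℝ := (radical n : ℝ) / Real.log (radical n : ℝ) ^ omega n

/-- the admissible triples `(a, b, c)` -/
def Admissible : Set (ℕ × ℕ × ℕ) :=
  {t | 0 < t.1 ∧ 0 < t.2.1 ∧ t.1 + t.2.1 = t.2.2 ∧ Nat.gcd t.1 (Nat.gcd t.2.1 t.2.2) = 1}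

/-- the assertion of Q1 for the triples of the set `T` only -/
def Inequality (T : Set (ℕ × ℕ × ℕ)) : Prop :=
  ∀ ε : ℝ, 0 < ε → ∃ C : ℝ, ∀ t ∈ T, (t.2.2 : ℝ) < C * H (t.1 * t.2.1 * t.2.2) ^ (1 + ε)

/-- the triples `(x ^ m, z ^ m - x ^ m, z ^ m)`, `x < z` coprime, with `x ^ m ≤ δ z ^ m`,
`N ∣ abc` and `log c` in one of the windows `[Y i, (1 + δ) Y i]` -/
def Thin (m N : ℕ) (δ : ℝ) (Y : ℕ → ℝ) : Set (ℕ × ℕ × ℕ) :=
  {t | ∃ x z : ℕ, 0 < x ∧ x < z ∧ Nat.Coprime x z ∧ t = (x ^ m, z ^ m - x ^ m, z ^ m) ∧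
    (x : ℝ) ^ m ≤ δ * (z : ℝ) ^ m ∧ N ∣ t.1 * t.2.1 * t.2.2 ∧
    ∃ i, Y i ≤ Real.log (t.2.2 : ℝ) ∧ Real.log (t.2.2 : ℝ) ≤ (1 + δ) * Y i}

theorem radical_pos (n : ℕ) : 0 < radical n :=
  Finset.prod_pos fun _ hr => (Nat.prime_of_mem_primeFactors hr).pos

theorem radical_le {n : ℕ} (hn : n ≠ 0) : radical n ≤ n :=
  Nat.le_of_dvd (Nat.pos_of_ne_zero hn) (Nat.prod_primeFactors_dvd n)

theorem two_le_radical {n : ℕ} (hn : 2 ≤ n) : 2 ≤ radical n := by
  obtain ⟨q, hq, hqd⟩ := Nat.exists_prime_and_dvd (n := n) (by omega)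
  have hmem : q ∈ n.primeFactors := Nat.mem_primeFactors.mpr ⟨hq, hqd, by omega⟩
  exact hq.two_le.trans (Nat.le_of_dvd (radical_pos _) (Finset.dvd_prod_of_mem _ hmem))

theorem H_pos {n : ℕ} (hn : 2 ≤ n) : 0 < H n := by
  have h1 : (2 : ℝ) ≤ radical n := by exact_mod_cast two_le_radical hn
  have h2 : 0 < Real.log (radical n : ℝ) := Real.log_pos (by linarith)
  unfold H
  have h3 : (0 : ℝ) < radical n := by linarith
  positivity

theorem log_four : 1 ≤ Real.log 4 := by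
  rw [Real.le_log_iff_exp_le (by norm_num)]
  have := Real.exp_one_lt_d9
  linarith

/-- multiplication by `S` increases `H` at most by the factor `S` -/
theorem H_mul_le {n n' S : ℕ} (hn : 2 ≤ n) (hS : S ≠ 0)
    (h : n'.primeFactors = n.primeFactors ∪ S.primeFactors) : H n' ≤ S * H n := by
  classical
  set D := S.primeFactors \ n.primeFactors with hD
  have hU : n'.primeFactors = n.primeFactors ∪ D := by
    rw [h, hD, Finset.union_sdiff_self_eq_union]
  have hdis : Disjoint n.primeFactors D := Finset.disjoint_sdiff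
  have hrad : radical n' = radical n * ∏ p ∈ D, p := by
    unfold radical
    rw [hU, Finset.prod_union hdis]
  have hom : omega n' = omega n + D.card := by
    unfold omega
    rw [hU, Finset.card_union_of_disjoint hdis]
  have hDS : ∏ p ∈ D, p ≤ S := by
    have h1 : (∏ p ∈ D, p) ∣ ∏ p ∈ S.primeFactors, p :=
      Finset.prod_dvd_prod_of_subset _ _ _ Finset.sdiff_subset
    exact Nat.le_of_dvd (Nat.pos_of_ne_zero hS) (h1.trans (Nat.prod_primeFactors_dvd S))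
  have hR : (2 : ℝ) ≤ radical n := by exact_mod_cast two_le_radical hn
  have hR0 : (0 : ℝ) < radical n := by linarith
  have hlR : 0 < Real.log (radical n : ℝ) := Real.log_pos (by linarith)
  have hDpos : 0 < ∏ p ∈ D, p := Finset.prod_pos fun p hp =>
    (Nat.prime_of_mem_primeFactors (Finset.mem_sdiff.1 hp).1).pos
  have hDpos' : (1 : ℝ) ≤ ((∏ p ∈ D, p : ℕ) : ℝ) := by exact_mod_cast hDpos
  have hlog : Real.log (radical n : ℝ) ≤ Real.log (radical n' : ℝ) := by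
    apply Real.log_le_log hR0
    rw [hrad]
    push_cast
    rw [← Nat.cast_prod]
    nlinarith
  have hk : 1 ≤ Real.log (radical n' : ℝ) ^ D.card := by
    rcases Finset.eq_empty_or_nonempty D with h0 | ⟨p, hp⟩
    · rw [h0, Finset.card_empty, pow_zero]
    · apply one_le_pow₀
      have hp' := Nat.prime_of_mem_primeFactors (Finset.mem_sdiff.1 hp).1
      have h2 : 2 ≤ ∏ p ∈ D, p := hp'.two_le.trans (Nat.le_of_dvd hDpos (Finset.dvd_prod_of_mem _ hp))
      have h4 : (4 : ℝ) ≤ radical n' := by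
        have : 2 * 2 ≤ radical n' := by
          rw [hrad]
          exact Nat.mul_le_mul (two_le_radical hn) h2
        exact_mod_cast this
      exact log_four.trans (Real.log_le_log (by norm_num) h4)
  have hden : Real.log (radical n : ℝ) ^ omega n ≤ Real.log (radical n' : ℝ) ^ omega n' := by
    rw [hom, pow_add]
    calc Real.log (radical n : ℝ) ^ omega n = Real.log (radical n : ℝ) ^ omega n * 1 := (mul_one _).symm
      _ ≤ Real.log (radical n' : ℝ) ^ omega n * Real.log (radical n' : ℝ) ^ D.card := by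
        gcongr
  have hRn : (radical n' : ℝ) ≤ S * radical n := by
    have : radical n' ≤ S * radical n := by
      rw [hrad, mul_comm]
      exact Nat.mul_le_mul_right _ hDS
    exact_mod_cast this
  unfold H
  rw [← mul_div_assoc]
  exact div_le_div₀ (by positivity) hRn (pow_pos hlR _) hden

/-- `c ^ M - a ^ M = (c - a) S` with `1 ≤ S ≤ M c ^ (M - 1)` -/
theorem exists_S {a c M : ℕ} (ha : 0 < a) (hac : a < c) (hM : 0 < M) :
    ∃ S : ℕ, S ≠ 0 ∧ c ^ M - a ^ M = (c - a) * S ∧ S ≤ M * c ^ (M - 1) := by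
  refine ⟨∑ i ∈ Finset.range M, c ^ i * a ^ (M - 1 - i), ?_, ?_, ?_⟩
  · apply Nat.pos_iff_ne_zero.1
    have h0 : 0 ∈ Finset.range M := Finset.mem_range.2 hM
    refine lt_of_lt_of_le ?_ (Finset.single_le_sum (fun i _ => Nat.zero_le _) h0)
    positivity
  · have h1 := (Commute.all (c : ℤ) (a : ℤ)).mul_geom_sum₂ M
    have h2 : a ^ M ≤ c ^ M := Nat.pow_le_pow_left hac.le M
    zify [h2, hac.le]
    rw [← h1]
  · calc ∑ i ∈ Finset.range M, c ^ i * a ^ (M - 1 - i) ≤ ∑ _i ∈ Finset.range M, c ^ (M - 1) := by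
          refine Finset.sum_le_sum fun i hi => ?_
          have hi' := Finset.mem_range.1 hi
          calc c ^ i * a ^ (M - 1 - i) ≤ c ^ i * c ^ (M - 1 - i) :=
                Nat.mul_le_mul_left _ (Nat.pow_le_pow_left hac.le _)
            _ = c ^ (M - 1) := by
                rw [← pow_add]
                congr 1
                omega
      _ = M * c ^ (M - 1) := by rw [Finset.sum_const, Finset.card_range, smul_eq_mul]

/-- the power map -/
theorem H_pow_le {a b c M : ℕ} (ha : 0 < a) (hb : 0 < b) (hc : a + b = c) (hM : 0 < M) :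
    H (a ^ M * (c ^ M - a ^ M) * c ^ M) ≤ (M * c ^ (M - 1) : ℕ) * H (a * b * c) := by
  have hac : a < c := by omega
  obtain ⟨S, hS0, hS, hSle⟩ := exists_S ha hac hM
  have hcb : c - a = b := by omega
  have hc0 : 0 < c := by omega
  have hn : 2 ≤ a * b * c := by
    have h1 : 1 ≤ a * b := Nat.mul_pos ha hb
    have h2 : 2 ≤ c := by omega
    calc 2 = 1 * 2 := rfl
      _ ≤ a * b * c := Nat.mul_le_mul h1 h2
  have hpf : (a ^ M * (c ^ M - a ^ M) * c ^ M).primeFactors =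
      (a * b * c).primeFactors ∪ S.primeFactors := by
    rw [hS, hcb]
    have e1 : a ^ M ≠ 0 := pow_ne_zero _ ha.ne'
    have e2 : c ^ M ≠ 0 := pow_ne_zero _ hc0.ne'
    rw [Nat.primeFactors_mul (mul_ne_zero e1 (mul_ne_zero hb.ne' hS0)) e2,
      Nat.primeFactors_mul e1 (mul_ne_zero hb.ne' hS0), Nat.primeFactors_mul hb.ne' hS0,
      Nat.primeFactors_pow _ hM.ne', Nat.primeFactors_pow _ hM.ne',
      Nat.primeFactors_mul (mul_ne_zero ha.ne' hb.ne') hc0.ne', Nat.primeFactors_mul ha.ne' hb.ne']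
    ext p
    simp only [Finset.mem_union]
    tauto
  refine (H_mul_le hn hS0 hpf).trans ?_
  have h1 : (S : ℝ) ≤ ((M * c ^ (M - 1) : ℕ) : ℝ) := by exact_mod_cast hSle
  exact mul_le_mul_of_nonneg_right h1 (H_pos hn).le

/-- idempotent powers modulo `N` -/
theorem idem {N : ℕ} (hN : 0 < N) (c : ZMod N) {M : ℕ} (hM : 0 < M) (hd : N.factorial ∣ M) :
    c ^ (M + M) = c ^ M := by
  have : NeZero N := ⟨hN.ne'⟩
  obtain ⟨i, j, hij, hcij⟩ : ∃ i j : Fin (N + 1), i ≠ j ∧ c ^ (i : ℕ) = c ^ (j : ℕ) := by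
    obtain ⟨i, j, h1, h2⟩ := Fintype.exists_ne_map_eq_of_card_lt
      (fun i : Fin (N + 1) => c ^ (i : ℕ)) (by rw [ZMod.card, Fintype.card_fin]; omega)
    exact ⟨i, j, h1, h2⟩
  wlog hlt : (i : ℕ) < j generalizing i j
  · exact this j i hij.symm hcij.symm (by
      have : (i : ℕ) ≠ j := fun h => hij (Fin.ext h)
      omega)
  set d := (j : ℕ) - i with hd'
  have hd1 : 0 < d := by omega
  have hdN : d ≤ N := by
    have := j.2
    omega
  have hdd : d ∣ M := (Nat.dvd_factorial hd1 hdN).trans hd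
  have hMN : N ≤ M := (Nat.self_le_factorial N).trans (Nat.le_of_dvd hM hd)
  have hiM : (i : ℕ) ≤ M := by
    have := i.2
    omega
  have step : ∀ t, (i : ℕ) ≤ t → c ^ (t + d) = c ^ t := by
    intro t ht
    obtain ⟨u, rfl⟩ := Nat.exists_eq_add_of_le ht
    have e1 : (i : ℕ) + u + d = j + u := by omega
    rw [e1, pow_add, ← hcij, ← pow_add]
  have steps : ∀ s, c ^ (M + d * s) = c ^ M := by
    intro s
    induction s with
    | zero => simp
    | succ s ih =>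
      have e1 : M + d * (s + 1) = (M + d * s) + d := by ring
      rw [e1, step _ (by omega), ih]
  obtain ⟨s, hs⟩ := hdd
  have := steps s
  rwa [← hs] at this

theorem dvd_prod {N : ℕ} (hN : 0 < N) (a c : ℕ) {M : ℕ} (hM : 0 < M) (hd : N.factorial ∣ M)
    (hac : a ≤ c) : N ∣ a ^ M * (c ^ M - a ^ M) * c ^ M := by
  have h2 : a ^ M ≤ c ^ M := Nat.pow_le_pow_left hac M
  rw [← ZMod.natCast_eq_zero_iff]
  push_cast [Nat.cast_sub h2]
  have h3 := idem hN (a : ZMod N) hM hd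
  have h4 := idem hN (c : ZMod N) hM hd
  rw [pow_add] at h3 h4
  calc (a : ZMod N) ^ M * ((c : ZMod N) ^ M - (a : ZMod N) ^ M) * (c : ZMod N) ^ M =
      (a : ZMod N) ^ M * ((c : ZMod N) ^ M * (c : ZMod N) ^ M) -
        ((a : ZMod N) ^ M * (a : ZMod N) ^ M) * (c : ZMod N) ^ M := by ring
    _ = 0 := by rw [h3, h4, sub_self]

/-- the choice of the exponent: a multiple `q L` of `L` in a window -/
theorem exists_window {δ r : ℝ} {Y : ℕ → ℝ} (hδ : 0 < δ) (hY : Tendsto Y atTop atTop)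
    (hr : ∀ i, Y (i + 1) ≤ r * Y i) {q₀ : ℕ} (hq : 1 ≤ δ * q₀) {L : ℝ} (hL : 0 < L)
    (h0 : Y 0 < q₀ * L) :
    ∃ q : ℕ, q₀ ≤ q ∧ (q : ℝ) ≤ max r 0 * q₀ + 1 ∧ ∃ i, Y i ≤ q * L ∧ q * L ≤ (1 + δ) * Y i := by
  classical
  have hq0 : 0 < (q₀ : ℝ) := by
    by_contra h
    push Not at h
    nlinarith
  have hex : ∃ i, q₀ * L ≤ Y i := (hY.eventually_ge_atTop (q₀ * L)).exists
  set i := Nat.find hex with hi
  have hi1 : q₀ * L ≤ Y i := Nat.find_spec hex
  have hi0 : i ≠ 0 := by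
    intro h
    rw [h] at hi1
    linarith
  obtain ⟨j, hj⟩ := Nat.exists_eq_succ_of_ne_zero hi0
  have hj1 : Y j < q₀ * L := by
    have := Nat.find_min hex (m := j) (by omega)
    push Not at this
    exact this
  have hYi : Y i ≤ max r 0 * (q₀ * L) := by
    rw [hj]
    have h1 := hr j
    have h2 : 0 < q₀ * L := by positivity
    rcases le_or_gt 0 (Y j) with h3 | h3
    · calc Y (j + 1) ≤ r * Y j := h1
        _ ≤ max r 0 * Y j := by
          have := le_max_left r 0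
          gcongr
        _ ≤ max r 0 * (q₀ * L) := by
          have := le_max_right r 0
          gcongr
    · -- `Y j < 0`: then `r < 0`, impossible for large indices
      exfalso
      rw [Nat.succ_eq_add_one] at hj
      rw [hj] at hi1
      have h4 : r < 0 := by
        by_contra h
        push Not at h
        have : r * Y j ≤ 0 := mul_nonpos_of_nonneg_of_nonpos h h3.le
        linarith
      have h5 := (hY.eventually_gt_atTop 0).and ((tendsto_add_atTop_iff_nat 1).2 hY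
        |>.eventually_gt_atTop 0)
      obtain ⟨k, h6, h7⟩ := h5.exists
      have h8 := hr k
      have h9 : r * Y k < 0 := mul_neg_of_neg_of_pos h4 h6
      linarith
  have hYi0 : 0 < Y i := lt_of_lt_of_le (by positivity) hi1
  refine ⟨⌈Y i / L⌉₊, ?_, ?_, i, ?_, ?_⟩
  · have h1 : (q₀ : ℝ) ≤ Y i / L := by rwa [le_div_iff₀ hL]
    exact_mod_cast h1.trans (Nat.le_ceil _)
  · have h1 := (Nat.ceil_lt_add_one (a := Y i / L) (by positivity)).le
    have h2 : Y i / L ≤ max r 0 * q₀ := by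
      rw [div_le_iff₀ hL]
      linarith
    linarith
  · have h1 := Nat.le_ceil (Y i / L)
    rwa [div_le_iff₀ hL] at h1
  · have h1 := (Nat.ceil_lt_add_one (a := Y i / L) (by positivity)).le
    have h2 : (⌈Y i / L⌉₊ : ℝ) * L ≤ (Y i / L + 1) * L := by gcongr
    have h3 : (Y i / L + 1) * L = Y i + L := by
      field_simp
    have h4 : L ≤ δ * Y i := by
      calc L = 1 * L := (one_mul L).symm
        _ ≤ δ * q₀ * L := by gcongr
        _ = δ * (q₀ * L) := by ring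
        _ ≤ δ * Y i := by gcongr
    linarith

/-- the deduction for one exponent -/
theorem descend {ε C' c h : ℝ} {M Mx : ℕ} (hε : 0 < ε) (hC : 1 ≤ C') (hc : 1 ≤ c) (hh : 0 < h)
    (hM : 1 ≤ M) (hMx : M ≤ Mx)
    (hin : c ^ M < C' * ((M * c ^ (M - 1)) * h) ^ (1 + ε / ((1 + ε) * Mx))) :
    (c ≤ (C' * (Mx : ℝ) ^ (1 + ε / ((1 + ε) * Mx))) ^ (1 + ε)) ∨
    c ≤ (C' * (Mx : ℝ) ^ (1 + ε / ((1 + ε) * Mx))) ^ (1 + ε) * h ^ (1 + ε) := by
  set e := ε / ((1 + ε) * Mx) with he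
  have hMx1 : (1 : ℝ) ≤ Mx := by exact_mod_cast hM.trans hMx
  have hM1 : (1 : ℝ) ≤ M := by exact_mod_cast hM
  have hMR : (M : ℝ) ≤ Mx := by exact_mod_cast hMx
  have he0 : 0 < e := by positivity
  have heM : e * ((1 + ε) * Mx) = ε := by
    rw [he]
    field_simp
  have hc0 : 0 < c := by linarith
  set θ := 1 - ((M : ℝ) - 1) * e with hθ
  have hθ1 : θ ≤ 1 := by
    have : 0 ≤ ((M : ℝ) - 1) * e := mul_nonneg (by linarith) he0.le
    linarith
  have hθ2 : 1 + e ≤ (1 + ε) * θ := by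
    have h1 : (1 + ε) * ((M : ℝ) - 1) * e + e ≤ e * ((1 + ε) * Mx) := by
      have h2 : e * ((1 + ε) * Mx) - ((1 + ε) * ((M : ℝ) - 1) * e + e) =
        e * ((1 + ε) * (Mx - M) + ε) := by ring
      have h3 : 0 ≤ e * ((1 + ε) * (Mx - M) + ε) := by
        have : 0 ≤ (Mx : ℝ) - M := by linarith
        positivity
      linarith
    rw [heM] at h1
    rw [hθ]
    linarith
  have hθ0 : 0 < θ := by
    by_contra h
    push Not at h
    have : (1 + ε) * θ ≤ 0 := mul_nonpos_of_nonneg_of_nonpos (by positivity) h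
    linarith
  have hθ3 : 1 / θ ≤ 1 + ε := by
    rw [div_le_iff₀ hθ0]
    linarith
  set K := C' * (Mx : ℝ) ^ (1 + e) with hK
  have hK1 : 1 ≤ K := by
    have h1 : 1 ≤ (Mx : ℝ) ^ (1 + e) := Real.one_le_rpow hMx1 (by linarith)
    nlinarith
  have key : c ^ θ < K * h ^ (1 + e) := by
    have h1 : (M * c ^ (M - 1) * h) ^ (1 + e) = (M : ℝ) ^ (1 + e) * c ^ (((M : ℝ) - 1) * (1 + e)) *
        h ^ (1 + e) := by
      rw [Real.mul_rpow (by positivity) hh.le, Real.mul_rpow (by positivity) (by positivity),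
        ← Real.rpow_natCast c (M - 1), ← Real.rpow_mul hc0.le, Nat.cast_sub hM, Nat.cast_one]
    rw [h1] at hin
    have h2 : c ^ M = c ^ θ * c ^ (((M : ℝ) - 1) * (1 + e)) := by
      rw [← Real.rpow_natCast c M, ← Real.rpow_add hc0]
      congr 1
      rw [hθ]
      ring
    rw [h2] at hin
    have h3 : 0 < c ^ (((M : ℝ) - 1) * (1 + e)) := by positivity
    have h4 : c ^ θ < C' * (M : ℝ) ^ (1 + e) * h ^ (1 + e) := by
      have h5 : C' * ((M : ℝ) ^ (1 + e) * c ^ (((M : ℝ) - 1) * (1 + e)) * h ^ (1 + e)) =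
        (C' * (M : ℝ) ^ (1 + e) * h ^ (1 + e)) * c ^ (((M : ℝ) - 1) * (1 + e)) := by ring
      rw [h5] at hin
      exact lt_of_mul_lt_mul_right hin h3.le
    refine h4.trans_le ?_
    rw [hK]
    gcongr
  have hroot : ∀ x : ℝ, 0 ≤ x → c ^ θ < x → c ≤ x ^ (1 / θ) := by
    intro x hx hcx
    calc c = (c ^ θ) ^ (1 / θ) := by
          rw [← Real.rpow_mul hc0.le, mul_one_div_cancel hθ0.ne', Real.rpow_one]
      _ ≤ x ^ (1 / θ) := by gcongr
  have hKθ : K ^ (1 / θ) ≤ K ^ (1 + ε) := Real.rpow_le_rpow_of_exponent_le hK1 hθ3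
  rcases le_total h 1 with h1 | h1
  · left
    have h2 : h ^ (1 + e) ≤ 1 := Real.rpow_le_one hh.le h1 (by linarith)
    have h3 : c ^ θ < K := by nlinarith
    exact (hroot K (by linarith) h3).trans hKθ
  · right
    have h2 : h ^ (1 + e) ≤ h ^ ((1 + ε) * θ) := Real.rpow_le_rpow_of_exponent_le h1 hθ2
    have h3 : c ^ θ < K * h ^ ((1 + ε) * θ) := lt_of_lt_of_le key (by gcongr)
    refine (hroot _ (by positivity) h3).trans ?_
    rw [Real.mul_rpow (by positivity) (by positivity), ← Real.rpow_mul hh.le]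
    have h4 : (1 + ε) * θ * (1 / θ) = 1 + ε := by field_simp
    rw [h4]
    gcongr

/-- finitely many triples are harmless -/
theorem bounded (B ε : ℝ) : ∃ C : ℝ, ∀ t ∈ Admissible, (t.2.2 : ℝ) ≤ B →
    (t.2.2 : ℝ) < C * H (t.1 * t.2.1 * t.2.2) ^ (1 + ε) := by
  set F : Set (ℕ × ℕ × ℕ) := Set.Iic (⌊B⌋₊, ⌊B⌋₊, ⌊B⌋₊) with hF
  have hFf : F.Finite := Set.finite_Iic _
  obtain ⟨C, hC⟩ := (hFf.image fun t : ℕ × ℕ × ℕ =>
    (t.2.2 : ℝ) / H (t.1 * t.2.1 * t.2.2) ^ (1 + ε)).bddAbove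
  refine ⟨C + 1, fun t ht htB => ?_⟩
  obtain ⟨h1, h2, h3, -⟩ := ht
  have hcB : t.2.2 ≤ ⌊B⌋₊ := Nat.le_floor htB
  have htF : t ∈ F := by
    rw [hF, Set.mem_Iic]
    refine ⟨?_, ?_, hcB⟩
    · show t.1 ≤ ⌊B⌋₊
      omega
    · show t.2.1 ≤ ⌊B⌋₊
      omega
  have hn : 2 ≤ t.1 * t.2.1 * t.2.2 := by
    have h4 : 1 ≤ t.1 * t.2.1 := Nat.mul_pos h1 h2
    have h5 : 2 ≤ t.2.2 := by omega
    calc 2 = 1 * 2 := rfl
      _ ≤ t.1 * t.2.1 * t.2.2 := Nat.mul_le_mul h4 h5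
  have hpos : 0 < H (t.1 * t.2.1 * t.2.2) ^ (1 + ε) := Real.rpow_pos_of_pos (H_pos hn) _
  have h6 : (t.2.2 : ℝ) / H (t.1 * t.2.1 * t.2.2) ^ (1 + ε) ≤ C := hC ⟨t, htF, rfl⟩
  rw [div_le_iff₀ hpos] at h6
  nlinarith

theorem thin_sub (m N : ℕ) (hm : 1 ≤ m) (δ : ℝ) (Y : ℕ → ℝ) : Thin m N δ Y ⊆ Admissible := by
  rintro t ⟨x, z, hx, hxz, hco, rfl, -⟩
  have h1 : x ^ m < z ^ m := Nat.pow_lt_pow_left hxz (by omega)
  refine ⟨pow_pos hx m, Nat.sub_pos_of_lt h1, Nat.add_sub_cancel' h1.le, ?_⟩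
  have h2 : Nat.Coprime (x ^ m) (z ^ m) := Nat.Coprime.pow m m hco
  refine Nat.dvd_one.1 ?_
  have h3 : Nat.gcd (x ^ m) (Nat.gcd (z ^ m - x ^ m) (z ^ m)) ∣ Nat.gcd (x ^ m) (z ^ m) :=
    Nat.dvd_gcd (Nat.gcd_dvd_left _ _) ((Nat.gcd_dvd_right _ _).trans (Nat.gcd_dvd_right _ _))
  have h2' : Nat.gcd (x ^ m) (z ^ m) = 1 := h2
  rwa [h2'] at h3

theorem thin_count (m N : ℕ) (hm : 1 ≤ m) (δ : ℝ) (Y : ℕ → ℝ) (X : ℝ) (hX : 1 ≤ X) :
    {t ∈ Thin m N δ Y | (t.2.2 : ℝ) ≤ X}.Finite ∧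
      (({t ∈ Thin m N δ Y | (t.2.2 : ℝ) ≤ X}.ncard : ℕ) : ℝ) ≤ X ^ (2 / (m : ℝ)) := by
  classical
  have hX0 : 0 < X := by linarith
  have hm0 : (0 : ℝ) < m := by exact_mod_cast hm
  set K := ⌊X ^ (1 / (m : ℝ))⌋₊ with hK
  set G : Finset (ℕ × ℕ × ℕ) := (Finset.Icc 1 K ×ˢ Finset.Icc 1 K).image
    fun q : ℕ × ℕ => (q.1 ^ m, q.2 ^ m - q.1 ^ m, q.2 ^ m) with hG
  have hsub : {t ∈ Thin m N δ Y | (t.2.2 : ℝ) ≤ X} ⊆ (G : Set (ℕ × ℕ × ℕ)) := by
    rintro t ⟨⟨x, z, hx, hxz, -, rfl, -⟩, htX⟩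
    simp only at htX
    have hzK : z ≤ K := by
      rw [hK]
      apply Nat.le_floor
      have h1 : ((z : ℝ) ^ m) ^ (1 / (m : ℝ)) ≤ X ^ (1 / (m : ℝ)) := by
        have : (z : ℝ) ^ m ≤ X := by exact_mod_cast htX
        gcongr
      rwa [← Real.rpow_natCast (z : ℝ) m, ← Real.rpow_mul (Nat.cast_nonneg z),
        mul_one_div_cancel hm0.ne', Real.rpow_one] at h1
    rw [hG, Finset.coe_image]
    refine ⟨(x, z), ?_, rfl⟩
    rw [Finset.mem_coe, Finset.mem_product, Finset.mem_Icc, Finset.mem_Icc]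
    exact ⟨⟨hx, by omega⟩, by omega, hzK⟩
  have hfin : (G : Set (ℕ × ℕ × ℕ)).Finite := G.finite_toSet
  refine ⟨hfin.subset hsub, ?_⟩
  have h1 : {t ∈ Thin m N δ Y | (t.2.2 : ℝ) ≤ X}.ncard ≤ K * K := by
    refine (Set.ncard_le_ncard hsub hfin).trans ?_
    rw [Set.ncard_coe_finset]
    refine Finset.card_image_le.trans ?_
    rw [Finset.card_product, Nat.card_Icc]
    simp
  have h2 : (K : ℝ) ≤ X ^ (1 / (m : ℝ)) := Nat.floor_le (by positivity)
  calc (({t ∈ Thin m N δ Y | (t.2.2 : ℝ) ≤ X}.ncard : ℕ) : ℝ) ≤ ((K * K : ℕ) : ℝ) := by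
        exact_mod_cast h1
    _ = (K : ℝ) * K := by push_cast; rfl
    _ ≤ X ^ (1 / (m : ℝ)) * X ^ (1 / (m : ℝ)) := by gcongr
    _ = X ^ (2 / (m : ℝ)) := by
        rw [← Real.rpow_add hX0]
        congr 1
        ring

theorem main (m N : ℕ) (hm : 1 ≤ m) (hN : 1 ≤ N) (δ : ℝ) (hδ : 0 < δ) (Y : ℕ → ℝ) (r : ℝ)
    (hY : Tendsto Y atTop atTop) (hr : ∀ i, Y (i + 1) ≤ r * Y i)
    (hT : Inequality (Thin m N δ Y)) : Inequality Admissible := by
  intro ε hε
  -- the constants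
  obtain ⟨q₁, hq₁⟩ := exists_nat_ge (1 / δ)
  obtain ⟨q₂, hq₂⟩ := exists_pow_lt_of_lt_one hδ (by norm_num : (1 / 2 : ℝ) < 1)
  set q₀ := max (max q₁ q₂) 1 with hq₀
  have hq01 : 1 ≤ q₀ := le_max_right _ _
  have hqδ : 1 ≤ δ * q₀ := by
    have h1 : (q₁ : ℝ) ≤ q₀ := by
      exact_mod_cast (le_max_left q₁ q₂).trans (le_max_left _ _)
    have h2 : 1 / δ ≤ q₀ := hq₁.trans h1
    rw [div_le_iff₀ hδ] at h2
    linarith
  set m₁ := m * N.factorial with hm₁
  have hm₁0 : 0 < m₁ := Nat.mul_pos hm (Nat.factorial_pos N)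
  set Q := ⌈max r 0 * q₀ + 1⌉₊ with hQ
  set Mx := m₁ * Q with hMx
  obtain ⟨C₀, hC₀⟩ := hT (ε / ((1 + ε) * Mx)) (by
    have hQ0 : 0 < Q := by
      rw [hQ]
      apply Nat.ceil_pos.2
      have : 0 ≤ max r 0 * q₀ := mul_nonneg (le_max_right _ _) (Nat.cast_nonneg _)
      linarith
    have : 0 < Mx := Nat.mul_pos hm₁0 hQ0
    have : (0 : ℝ) < Mx := by exact_mod_cast this
    positivity)
  set C' := max C₀ 1 with hC'
  set K := (C' * (Mx : ℝ) ^ (1 + ε / ((1 + ε) * Mx))) ^ (1 + ε) with hK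
  obtain ⟨C₁, hC₁⟩ := bounded (max K (Real.exp (Y 0))) ε
  refine ⟨max C₁ (K + 1), fun t ht => ?_⟩
  -- it is enough to treat `a ≤ b`
  have key : ∀ a b : ℕ, 0 < a → 0 < b → Nat.Coprime a (a + b) → a ≤ b →
      ((a + b : ℕ) : ℝ) ≤ max K (Real.exp (Y 0)) ∨
      ((a + b : ℕ) : ℝ) ≤ K * H (a * b * (a + b)) ^ (1 + ε) := by
    intro a b ha hb hco hab
    set c := a + b with hc
    have hac : a < c := by omega
    have hc2 : 2 ≤ c := by omega
    have hcR : (2 : ℝ) ≤ c := by exact_mod_cast hc2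
    have hn : 2 ≤ a * b * c := by
      calc 2 = 1 * 2 := rfl
        _ ≤ a * b * c := Nat.mul_le_mul (Nat.mul_pos ha hb) hc2
    have hlc : 0 < Real.log (c : ℝ) := Real.log_pos (by linarith)
    set L := m₁ * Real.log (c : ℝ) with hL
    have hm₁R : (1 : ℝ) ≤ m₁ := by exact_mod_cast hm₁0
    have hL0 : 0 < L := by positivity
    rcases le_or_gt (q₀ * L) (Y 0) with hsm | hbig
    · -- small `c`
      left
      refine le_trans ?_ (le_max_right _ _)
      rw [← Real.log_le_iff_le_exp (by linarith)]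
      have hq0R : (1 : ℝ) ≤ q₀ := by exact_mod_cast hq01
      calc Real.log (c : ℝ) = 1 * (1 * Real.log (c : ℝ)) := by ring
        _ ≤ q₀ * (m₁ * Real.log (c : ℝ)) := by gcongr
        _ ≤ Y 0 := hsm
    · obtain ⟨q, hqq, hqQ, i, hi1, hi2⟩ := exists_window hδ hY hr hqδ hL0 hbig
      have hq1 : 1 ≤ q := hq01.trans hqq
      set M := m₁ * q with hM
      have hM1 : 1 ≤ M := Nat.mul_pos hm₁0 hq1
      have hMMx : M ≤ Mx := by
        refine Nat.mul_le_mul_left _ ?_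
        have h1 : (q : ℝ) ≤ (Q : ℝ) := hqQ.trans (Nat.le_ceil _)
        exact_mod_cast h1
      have hfac : N.factorial ∣ M := ⟨m * q, by rw [hM, hm₁]; ring⟩
      have eM : M = N.factorial * q * m := by rw [hM, hm₁]; ring
      have hcM : Real.log ((c ^ M : ℕ) : ℝ) = q * L := by
        rw [Nat.cast_pow, Real.log_pow, hM, hL]
        push_cast
        ring
      -- the thin triple
      have hthin : (a ^ M, c ^ M - a ^ M, c ^ M) ∈ Thin m N δ Y := by
        refine ⟨a ^ (N.factorial * q), c ^ (N.factorial * q), pow_pos ha _,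
          Nat.pow_lt_pow_left hac (Nat.mul_pos (Nat.factorial_pos N) hq1).ne',
          Nat.Coprime.pow _ _ hco, ?_, ?_, dvd_prod hN a c hM1 hfac hac.le, i, ?_, ?_⟩
        · rw [← pow_mul, ← pow_mul, ← eM]
        · push_cast
          rw [← pow_mul, ← pow_mul, ← eM]
          have h1 : (a : ℝ) ≤ 1 / 2 * c := by
            have : 2 * a ≤ c := by omega
            have : (2 : ℝ) * a ≤ c := by exact_mod_cast this
            linarith
          have hqM : q₂ ≤ M := by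
            have h2 : q₂ ≤ q := ((le_max_right q₁ q₂).trans (le_max_left _ _)).trans hqq
            exact h2.trans (Nat.le_mul_of_pos_left q hm₁0)
          calc (a : ℝ) ^ M ≤ (1 / 2 * c) ^ M := by gcongr
            _ = (1 / 2) ^ M * (c : ℝ) ^ M := by rw [mul_pow]
            _ ≤ (1 / 2) ^ q₂ * (c : ℝ) ^ M := by
                refine mul_le_mul_of_nonneg_right ?_ (by positivity)
                exact pow_le_pow_of_le_one (by norm_num) (by norm_num) hqM
            _ ≤ δ * (c : ℝ) ^ M := by gcongr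
        · show Y i ≤ Real.log ((c ^ M : ℕ) : ℝ)
          rw [hcM]
          exact hi1
        · show Real.log ((c ^ M : ℕ) : ℝ) ≤ (1 + δ) * Y i
          rw [hcM]
          exact hi2
      have h1 := hC₀ _ hthin
      simp only at h1
      have h2 := H_pow_le ha hb rfl hM1 (c := c)
      have hH' : 0 ≤ H (a ^ M * (c ^ M - a ^ M) * c ^ M) := by
        have : 2 ≤ a ^ M * (c ^ M - a ^ M) * c ^ M := by
          have g1 : a ^ M < c ^ M := Nat.pow_lt_pow_left hac (by omega)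
          have g2 : 1 ≤ a ^ M * (c ^ M - a ^ M) := Nat.mul_pos (pow_pos ha M) (Nat.sub_pos_of_lt g1)
          have g3 : 2 ≤ c ^ M := hc2.trans (Nat.le_self_pow (by omega) c)
          calc 2 = 1 * 2 := rfl
            _ ≤ _ := Nat.mul_le_mul g2 g3
        exact (H_pos this).le
      have hhp := H_pos hn
      have hin : (c : ℝ) ^ M < C' * ((M * (c : ℝ) ^ (M - 1)) * H (a * b * c)) ^
          (1 + ε / ((1 + ε) * Mx)) := by
        have h3 : ((c ^ M : ℕ) : ℝ) = (c : ℝ) ^ M := by push_cast; rfl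
        rw [← h3]
        have e0 : 0 < 1 + ε / ((1 + ε) * Mx) := by positivity
        have h4 : H (a ^ M * (c ^ M - a ^ M) * c ^ M) ^ (1 + ε / ((1 + ε) * Mx)) ≤
            ((M * (c : ℝ) ^ (M - 1)) * H (a * b * c)) ^ (1 + ε / ((1 + ε) * Mx)) := by
          refine Real.rpow_le_rpow hH' ?_ e0.le
          push_cast at h2
          exact h2
        have hge : 0 ≤ H (a ^ M * (c ^ M - a ^ M) * c ^ M) ^ (1 + ε / ((1 + ε) * Mx)) :=
          Real.rpow_nonneg hH' _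
        calc ((c ^ M : ℕ) : ℝ) < C₀ * H (a ^ M * (c ^ M - a ^ M) * c ^ M) ^
              (1 + ε / ((1 + ε) * Mx)) := h1
          _ ≤ C' * H (a ^ M * (c ^ M - a ^ M) * c ^ M) ^ (1 + ε / ((1 + ε) * Mx)) :=
              mul_le_mul_of_nonneg_right (le_max_left _ _) hge
          _ ≤ _ := mul_le_mul_of_nonneg_left h4 (le_trans zero_le_one (le_max_right _ _))
      rcases descend hε (le_max_right C₀ 1) (by linarith) hhp hM1 hMMx hin with h5 | h5
      · exact Or.inl (h5.trans (le_max_left _ _))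
      · exact Or.inr h5
  obtain ⟨h1, h2, h3, h4⟩ := ht
  have hco : Nat.Coprime t.1 (t.1 + t.2.1) := by
    rw [← h3] at h4
    have h5 : Nat.gcd t.1 (t.1 + t.2.1) ∣ Nat.gcd t.1 (Nat.gcd t.2.1 (t.1 + t.2.1)) := by
      refine Nat.dvd_gcd (Nat.gcd_dvd_left _ _) (Nat.dvd_gcd ?_ (Nat.gcd_dvd_right _ _))
      exact (Nat.dvd_add_right (Nat.gcd_dvd_left _ _)).1 (Nat.gcd_dvd_right _ _)
    rw [h4] at h5
    exact Nat.dvd_one.1 h5
  have hn : 2 ≤ t.1 * t.2.1 * t.2.2 := by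
    have h5 : 2 ≤ t.2.2 := by omega
    calc 2 = 1 * 2 := rfl
      _ ≤ t.1 * t.2.1 * t.2.2 := Nat.mul_le_mul (Nat.mul_pos h1 h2) h5
  have hpos : 0 < H (t.1 * t.2.1 * t.2.2) ^ (1 + ε) := Real.rpow_pos_of_pos (H_pos hn) _
  have hfin : (t.2.2 : ℝ) ≤ max K (Real.exp (Y 0)) ∨
      (t.2.2 : ℝ) ≤ K * H (t.1 * t.2.1 * t.2.2) ^ (1 + ε) := by
    rcases le_total t.1 t.2.1 with h5 | h5
    · have := key t.1 t.2.1 h1 h2 hco h5
      rwa [h3] at this
    · have hco' : Nat.Coprime t.2.1 (t.2.1 + t.1) := by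
        have g1 : Nat.Coprime t.1 t.2.1 := (Nat.coprime_add_self_right (m := t.1) (n := t.2.1)).1 (by
          rwa [add_comm] at hco)
        exact (Nat.coprime_add_self_right (m := t.2.1) (n := t.1)).2 g1.symm |> fun g => by
          rwa [add_comm] at g
      have := key t.2.1 t.1 h2 h1 hco' h5
      rwa [add_comm t.2.1 t.1, h3, mul_comm t.2.1 t.1] at this
  rcases hfin with h5 | h5
  · refine (hC₁ t ⟨h1, h2, h3, h4⟩ h5).trans_le ?_
    exact mul_le_mul_of_nonneg_right (le_max_left _ _) hpos.le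
  · calc (t.2.2 : ℝ) ≤ K * H (t.1 * t.2.1 * t.2.2) ^ (1 + ε) := h5
      _ < (K + 1) * H (t.1 * t.2.1 * t.2.2) ^ (1 + ε) := by nlinarith
      _ ≤ _ := mul_le_mul_of_nonneg_right (le_max_right _ _) hpos.le

/-- **The inequality of Q1 is decided on thin and sparse sets of triples.** -/
theorem result (m N : ℕ) (hm : 1 ≤ m) (hN : 1 ≤ N) (δ : ℝ) (hδ : 0 < δ) (Y : ℕ → ℝ) (r : ℝ)
    (hY : Tendsto Y atTop atTop) (hr : ∀ i, Y (i + 1) ≤ r * Y i) :
    (Inequality Admissible ↔ Inequality (Thin m N δ Y)) ∧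
      ∀ X : ℝ, 1 ≤ X → {t ∈ Thin m N δ Y | (t.2.2 : ℝ) ≤ X}.Finite ∧
        (({t ∈ Thin m N δ Y | (t.2.2 : ℝ) ≤ X}.ncard : ℕ) : ℝ) ≤ X ^ (2 / (m : ℝ)) := by
  refine ⟨⟨fun h ε hε => ?_, main m N hm hN δ hδ Y r hY hr⟩, fun X hX => thin_count m N hm δ Y X hX⟩
  obtain ⟨C, hC⟩ := h ε hε
  exact ⟨C, fun t ht => hC t (thin_sub m N hm δ Y ht)⟩

end Pool.Agent.Results.MP_14cf73_nt.ThinTriples
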